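import Pool.Agent.Helper35.EAM.Spec2
import Pool.Graph.R_pool_sql_team_seeded_1e53cb71.Helper79K9.FS.A4

/-!
# EAM2, part HU: hereditary uniqueness of the Gibbs state in the phase

`t_HU : S_HU`.
-/

set_option autoImplicit false

open MeasureTheory Filter Topology
open scoped ENNReal BoundedContinuousFunction

namespace Pool.Agent.Helper56.EAM

open Pool.H47EA Pool.H47EA.GIBBSE Pool.Agent.Helper35.EAM2
open Pool.Agent.Helper79K9.FS (DecaysAt phase ae_phase)

variable {d : ℕ}

theorem forgetOn {β : ℝ} {J : Coupling d} {K : Site d → ℝ} {a : ℝ} (ha : 0 < a)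
    (hD : DecaysAt (gE β J) K a) (S : Set (Site d)) (ζ : Site d → Bool) (A : Finset (Site d))
    (δ : ℝ) (hδ : 0 < δ) :
    ∃ L : Finset (Site d), (∀ x ∈ L, x ∈ S) ∧ ∀ f, Unit01 f → LocalOn A f →
      ∀ ω ω' : Site d → Bool, (∀ y, y ∉ S → ω y = ζ y) → (∀ y, y ∉ S → ω' y = ζ y) →
        |gE β J L ω f - gE β J L ω' f| ≤ δ := by
  classical
  have hlim : Tendsto (fun n : ℕ => (∑ x ∈ A, K x) * Real.exp (-(a * n))) atTop (𝓝 0) := by
    have h1 : Tendsto (fun n : ℕ => Real.exp (-(a * n))) atTop (𝓝 0) := by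
      apply Real.tendsto_exp_neg_atTop_nhds_zero.comp
      exact tendsto_natCast_atTop_atTop.const_mul_atTop ha
    simpa using h1.const_mul (∑ x ∈ A, K x)
  obtain ⟨n, hn⟩ := ((hlim.eventually (gt_mem_nhds hδ))).exists
  refine ⟨(A.biUnion fun a => ball a n).filter (· ∈ S), fun x hx => (Finset.mem_filter.1 hx).2,
    fun f hf hfA ω ω' hω hω' => ?_⟩
  refine (hD A _ f hf hfA n ω ω' fun a ha y hy hne => ?_).trans hn.le
  by_contra hcon
  apply hy
  rw [Finset.mem_filter, Finset.mem_biUnion]
  refine ⟨⟨a, ha, (chain_mem_ball a y _).2 (by omega)⟩, ?_⟩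
  by_contra hS
  exact hne ((hω y hS).trans (hω' y hS).symm)

/-- uniqueness -/
theorem uniqueOn {β : ℝ} {J : Coupling d} {K : Site d → ℝ} {a : ℝ} (ha : 0 < a)
    (hD : DecaysAt (gE β J) K a) (S : Set (Site d)) (ζ : Site d → Bool)
    (π π' : Measure (Site d → Bool)) (hπ : IsGibbsOn β J S ζ π) (hπ' : IsGibbsOn β J S ζ π') :
    π = π' := by
  have := hπ.1
  have := hπ'.1
  refine MeasureTheory.ext_of_generate_finite (measurableCylinders fun _ : Site d => Bool)
    generateFrom_measurableCylinders.symm isPiSystem_measurableCylinders ?_ (by simp)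
  intro C hC
  obtain ⟨s, T, hT, rfl⟩ := (mem_measurableCylinders C).1 hC
  set C : Set (Site d → Bool) := cylinder (α := fun _ : Site d => Bool) s T with hCdef
  have hCm : MeasurableSet C := MeasurableSet.cylinder s hT
  set f : (Site d → Bool) → ℝ := C.indicator fun _ => (1 : ℝ) with hf
  have hfm : Measurable f := measurable_const.indicator hCm
  have hf01 : Unit01 f := by
    intro σ
    by_cases h : σ ∈ C <;> simp [hf, h]
  have hfl : LocalOn s f := by
    intro σ σ' h
    have : σ ∈ C ↔ σ' ∈ C := by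
      rw [hCdef, mem_cylinder, mem_cylinder]
      have : s.restrict σ = s.restrict σ' := by
        funext x; exact h x.1 x.2
      rw [this]
    by_cases h1 : σ ∈ C
    · simp [hf, h1, this.1 h1]
    · have h2 : σ' ∉ C := fun h => h1 (this.2 h)
      simp [hf, h1, h2]
  have key : ∀ (ρ : Measure (Site d → Bool)), IsGibbsOn β J S ζ ρ → ∀ (L : Finset (Site d)),
      (∀ x ∈ L, x ∈ S) → ∀ (δ : ℝ), 0 < δ →
      (∀ ω ω' : Site d → Bool, (∀ y, y ∉ S → ω y = ζ y) → (∀ y, y ∉ S → ω' y = ζ y) →
        |gE β J L ω f - gE β J L ω' f| ≤ δ) →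
      |(ρ C).toReal - gE β J L ζ f| ≤ δ := by
    intro ρ hρ L hL δ hδ hb
    have := hρ.1
    rw [hρ.2.2 L hL C hCm]
    have hint : Integrable (fun ω => gE β J L ω f) ρ := by
      refine Integrable.of_bound (meas_gE β J _ f hfm).aestronglyMeasurable 1 ?_
      refine Filter.Eventually.of_forall fun ω => ?_
      have := gE_indicator_mem β J L ω f hf01
      rw [Real.norm_eq_abs, abs_of_nonneg this.1]
      exact this.2
    have e : (∫ ω, gE β J L ω f ∂ρ) - gE β J L ζ f
        = ∫ ω, (gE β J L ω f - gE β J L ζ f) ∂ρ := by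
      rw [integral_sub hint (integrable_const _)]
      simp
    rw [e]
    have := norm_integral_le_of_norm_le_const (μ := ρ)
      (f := fun ω => gE β J L ω f - gE β J L ζ f)
      (C := δ) (by
        filter_upwards [hρ.2.1] with ω hω
        rw [Real.norm_eq_abs]; exact hb ω _ hω fun _ _ => rfl)
    simpa using this
  have hfin : ∀ δ : ℝ, 0 < δ → |(π C).toReal - (π' C).toReal| ≤ 2 * δ := by
    intro δ hδ
    obtain ⟨L, hL, hLL⟩ := forgetOn ha hD S ζ s δ hδ
    have h1 := key π hπ L hL δ hδ (hLL f hf01 hfl)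
    have h2 := key π' hπ' L hL δ hδ (hLL f hf01 hfl)
    rw [abs_le] at h1 h2 ⊢
    constructor <;> linarith [h1.1, h1.2, h2.1, h2.2]
  have heq : (π C).toReal = (π' C).toReal := by
    by_contra hne
    have hpos : 0 < |(π C).toReal - (π' C).toReal| := abs_pos.2 (sub_ne_zero.2 hne)
    have := hfin (|(π C).toReal - (π' C).toReal| / 4) (by positivity)
    linarith
  exact (ENNReal.toReal_eq_toReal_iff' (measure_ne_top _ _) (measure_ne_top _ _)).1 heq

/-- existence, for every set of sites and all frozen spins -/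
theorem existsOn (β : ℝ) (J : Coupling d) (S : Set (Site d)) (ζ : Site d → Bool) :
    ∃ π : Measure (Site d → Bool), IsGibbsOn β J S ζ π := by
  classical
  let R : Finset (Site d) → Finset (Site d) := fun Λ => Λ.filter (· ∈ S)
  let P : Finset (Site d) → ProbabilityMeasure (Site d → Bool) := fun Λ =>
    ⟨KK β J (R Λ) (Measure.dirac ζ), prob_KK β J (R Λ) _⟩
  let U : Ultrafilter (Finset (Site d)) := Ultrafilter.of atTop
  have hU : (U : Filter (Finset (Site d))) ≤ atTop := Ultrafilter.of_le _
  obtain ⟨π, -, hπ⟩ := (isCompact_univ (X := ProbabilityMeasure (Site d → Bool))).ultrafilter_le_nhds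
    (U.map P) (by simp)
  have hlim : Tendsto P U (𝓝 π) := hπ
  have hconv : ∀ f : (Site d → Bool) → ℝ, Continuous f →
      Tendsto (fun Λ => gE β J (R Λ) ζ f) U (𝓝 (∫ ω, f ω ∂(π : Measure (Site d → Bool)))) := by
    intro f hf
    let F : (Site d → Bool) →ᵇ ℝ := BoundedContinuousFunction.mkOfCompact ⟨f, hf⟩
    have h1 := (ProbabilityMeasure.tendsto_iff_forall_integral_tendsto.mp hlim) F
    refine h1.congr fun Λ => ?_
    exact integral_KK_dirac β J (R Λ) ζ f hf.measurable ‖F‖ fun x => F.norm_coe_le_norm x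
  -- the frozen spins
  have hfroz : ∀ y, y ∉ S → ∀ᵐ σ ∂(π : Measure (Site d → Bool)), σ y = ζ y := by
    intro y hy
    set f : (Site d → Bool) → ℝ := fun σ => if σ y = ζ y then 0 else 1 with hf
    have hc : Continuous f := by
      have h1 : Continuous (fun b : Bool => if b = ζ y then (0 : ℝ) else 1) :=
        continuous_of_discreteTopology
      exact h1.comp (continuous_apply y)
    have h1 := hconv f hc
    have h2 : ∀ Λ, gE β J (R Λ) ζ f = 0 := by
      intro Λ
      have hyR : y ∉ R Λ := fun h => hy (Finset.mem_filter.1 h).2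
      unfold gE
      rw [Finset.sum_eq_zero, zero_div]
      intro η _
      have : glue (R Λ) η ζ y = ζ y := by
        unfold glue
        rw [dif_neg hyR]
      simp [hf, this]
    have h3 : ∫ ω, f ω ∂(π : Measure (Site d → Bool)) = 0 := by
      refine tendsto_nhds_unique h1 ?_
      simp only [h2]
      exact tendsto_const_nhds
    have hnn : 0 ≤ᵐ[(π : Measure (Site d → Bool))] f :=
      ae_of_all _ fun σ => by simp only [hf, Pi.zero_apply]; split_ifs <;> norm_num
    have hint : Integrable f (π : Measure (Site d → Bool)) :=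
      Integrable.of_bound hc.measurable.aestronglyMeasurable 1 (ae_of_all _ fun σ => by
        simp only [hf]; split_ifs <;> norm_num)
    have h4 := (integral_eq_zero_iff_of_nonneg_ae hnn hint).1 h3
    filter_upwards [h4] with σ hσ
    by_contra hne
    simp [hf, hne] at hσ
  -- invariance
  have hinv : ∀ (Λ : Finset (Site d)), (∀ x ∈ Λ, x ∈ S) → ∀ (f : (Site d → Bool) → ℝ),
      Continuous f →
      ∫ ω, gE β J Λ ω f ∂(π : Measure (Site d → Bool)) =
        ∫ ω, f ω ∂(π : Measure (Site d → Bool)) := by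
    intro Λ hΛS f hf
    have h1 := hconv f hf
    have h2 := hconv (fun ω => gE β J Λ ω f) (continuous_gE β J Λ f hf)
    refine tendsto_nhds_unique h2 (h1.congr' ?_)
    have h3 : ∀ᶠ Λ' in (U : Filter (Finset (Site d))), Λ ⊆ Λ' := hU (eventually_ge_atTop Λ)
    filter_upwards [h3] with Λ' hΛ
    refine (t_BASIC d β J (R Λ') ζ).2.2.2.2.2.1 Λ ?_ f
    intro x hx
    exact Finset.mem_filter.2 ⟨hΛ hx, hΛS x hx⟩
  have hK : ∀ Λ : Finset (Site d), (∀ x ∈ Λ, x ∈ S) → KK β J Λ (π : Measure (Site d → Bool)) =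
      (π : Measure (Site d → Bool)) := by
    intro Λ hΛS
    have := prob_KK β J Λ (π : Measure (Site d → Bool))
    haveI : TopologicalSpace.MetrizableSpace (Site d → Bool) :=
      TopologicalSpace.metrizableSpace_of_t3_secondCountable _
    letI : MetricSpace (Site d → Bool) := TopologicalSpace.metrizableSpaceMetric _
    apply ext_of_forall_integral_eq_of_IsFiniteMeasure
    intro f
    rw [integral_KK β J Λ _ f f.continuous.measurable ‖f‖ fun x => f.norm_coe_le_norm x]
    exact hinv Λ hΛS f f.continuous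
  refine ⟨π, inferInstance, ?_, ?_⟩
  · have h1 : ∀ᵐ σ ∂(π : Measure (Site d → Bool)), ∀ y : Site d, y ∉ S → σ y = ζ y := by
      rw [ae_all_iff]
      intro y
      by_cases hy : y ∈ S
      · exact ae_of_all _ fun σ h => absurd hy h
      · filter_upwards [hfroz y hy] with σ hσ _
        exact hσ
    exact h1
  · intro L hL A hA
    have hind : Measurable (A.indicator fun _ => (1 : ℝ)) := measurable_const.indicator hA
    have h1 := integral_KK β J L (π : Measure (Site d → Bool))
      (A.indicator fun _ => (1 : ℝ)) hind 1 (by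
        intro x
        by_cases hx : x ∈ A
        · simp [hx]
        · simp [hx])
    rw [← h1, hK L hL, integral_indicator hA]
    simp [Measure.real]

theorem t_HU : S_HU := by
  intro d hd
  filter_upwards [ae_phase hd] with J hJ β hβ S ζ
  obtain ⟨K, a, ha, hD⟩ := hJ β hβ
  obtain ⟨π, hπ⟩ := existsOn β J S ζ
  exact ⟨π, hπ, fun π' hπ' => uniqueOn ha hD S ζ π' π hπ' hπ⟩

end Pool.Agent.Helper56.EAM
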