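import Pool.Agent.Helper35.EAM.Spec3
import Pool.Graph.R_pool_sql_team_seeded_1e53cb71.Helper79K9.FS.A5

/-!
# EAM3, part BASH: elementary facts on the influences in a hyperplane

Adapted from `Helper79K9/FS/A1.lean`, `A3.lean`, `A5.lean`.
-/

set_option autoImplicit false

open MeasureTheory
open scoped ENNReal

namespace Pool.Agent.Helper56.EAM3.Bas

open Pool.H47EA Pool.Agent.Helper79K9.FS Pool.Agent.Helper35.EAM3

variable {d : ℕ} {c : Fin d} {β : ℝ} {J : Coupling d} {n : ℕ} {x : Site d}

theorem bddH : BddAbove (inflHSet c β J n x) := by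
  refine ⟨1, ?_⟩
  rintro t ⟨L, ω, ω', -, -, -, rfl⟩
  exact diff_le_one β J L ω ω' (unit_ind x)

theorem zero_memH : (0 : ℝ) ∈ inflHSet c β J n x :=
  ⟨{x}, fun _ => true, fun _ => true, by simp, by simp, by simp, by simp⟩

theorem nonnegH : 0 ≤ inflH c β J n x := le_csSup bddH zero_memH

theorem inflH_le {b : ℝ} (hb : ∀ (L : Finset (Site d)) (ω ω' : Site d → Bool), x ∈ L →
    (∀ y ∈ L, y c = x c) → (∀ y, y ∉ L → dist1 x y < n → ω y = ω' y) →
    |gE β J L ω (ind x) - gE β J L ω' (ind x)| ≤ b) : inflH c β J n x ≤ b := by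
  refine csSup_le ⟨0, zero_memH⟩ ?_
  rintro t ⟨L, ω, ω', hx, hc, h, rfl⟩
  exact hb L ω ω' hx hc h

theorem le_inflH (L : Finset (Site d)) (ω ω' : Site d → Bool) (hx : x ∈ L)
    (hc : ∀ y ∈ L, y c = x c) (h : ∀ y, y ∉ L → dist1 x y < n → ω y = ω' y) :
    |gE β J L ω (ind x) - gE β J L ω' (ind x)| ≤ inflH c β J n x :=
  le_csSup bddH ⟨L, ω, ω', hx, hc, h, rfl⟩

theorem le_oneH : inflH c β J n x ≤ 1 :=
  inflH_le fun L ω ω' _ _ _ => diff_le_one β J L ω ω' (unit_ind x)

theorem le_inflH' : inflH c β J n x ≤ infl β J n x :=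
  inflH_le fun L ω ω' hx _ h => le_infl L ω ω' hx h

theorem antiH {n' : ℕ} (h : n ≤ n') : inflH c β J n' x ≤ inflH c β J n x :=
  inflH_le fun L ω ω' hx hc h' => le_inflH L ω ω' hx hc fun y hy hd => h' y hy (hd.trans_le h)

/-- volumes contained in the ball suffice -/
theorem restrictH (hn : 1 ≤ n) {b : ℝ}
    (hb : ∀ (L : Finset (Site d)) (ω ω' : Site d → Bool), x ∈ L → (∀ y ∈ L, y c = x c) →
      (∀ y ∈ L, dist1 x y < n) → (∀ y, y ∉ L → dist1 x y < n → ω y = ω' y) →
      |gE β J L ω (ind x) - gE β J L ω' (ind x)| ≤ b) : inflH c β J n x ≤ b := by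
  classical
  refine inflH_le fun Λ ω ω' hx hcΛ hω => ?_
  set L : Finset (Site d) := Λ.filter (fun y => dist1 x y < n) with hL
  have hLΛ : L ⊆ Λ := Finset.filter_subset _ _
  have hLB : ∀ y ∈ L, dist1 x y < n := fun y hy => (Finset.mem_filter.1 hy).2
  have hxL : x ∈ L := Finset.mem_filter.2 ⟨hx, by rw [InfAux.dist_self]; omega⟩
  have hinner : ∀ (η η' : Λ → Bool),
      |gE β J L (glue Λ η ω) (ind x) - gE β J L (glue Λ η' ω') (ind x)| ≤ b := by
    intro η η'
    refine hb L _ _ hxL (fun y hy => hcΛ y (hLΛ hy)) hLB fun y hyL hy => ?_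
    have hyΛ : y ∉ Λ := fun h => hyL (Finset.mem_filter.2 ⟨h, hy⟩)
    simp only [glue, hyΛ, dif_neg, not_false_iff]
    exact hω y hyΛ hy
  have s := spEA β J
  rw [s.cons Λ ω L hLΛ (ind x), s.cons Λ ω' L hLΛ (ind x)]
  set X := gE β J Λ ω (fun τ => gE β J L τ (ind x)) with hX
  have h1 : ∀ η' : Λ → Bool, |X - gE β J L (glue Λ η' ω') (ind x)| ≤ b := by
    intro η'
    set c := gE β J L (glue Λ η' ω') (ind x) with hc
    have u1 : X ≤ c + b := by
      calc X ≤ gE β J Λ ω (fun _ => c + b) := s.mono _ _ _ _ fun η => by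
            have := (abs_le.1 (hinner η η')).2
            show gE β J L (glue Λ η ω) (ind x) ≤ c + b
            linarith
        _ = c + b := s.const _ _ _
    have u2 : c - b ≤ X := by
      calc c - b = gE β J Λ ω (fun _ => c - b) := (s.const _ _ _).symm
        _ ≤ X := s.mono _ _ _ _ fun η => by
            have := (abs_le.1 (hinner η η')).1
            show c - b ≤ gE β J L (glue Λ η ω) (ind x)
            linarith
    rw [abs_le]
    constructor <;> linarith
  set Y := gE β J Λ ω' (fun τ => gE β J L τ (ind x)) with hY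
  have v1 : X - b ≤ Y := by
    calc X - b = gE β J Λ ω' (fun _ => X - b) := (s.const _ _ _).symm
      _ ≤ Y := s.mono _ _ _ _ fun η => by
          have := (abs_le.1 (h1 η)).2
          show X - b ≤ gE β J L (glue Λ η ω') (ind x)
          linarith
  have v2 : Y ≤ X + b := by
    calc Y ≤ gE β J Λ ω' (fun _ => X + b) := s.mono _ _ _ _ fun η => by
          have := (abs_le.1 (h1 η)).1
          show gE β J L (glue Λ η ω') (ind x) ≤ X + b
          linarith
      _ = X + b := s.const _ _ _
  rw [abs_le]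
  constructor <;> linarith

theorem localH (hn : 1 ≤ n) {J J' : Coupling d} (h : ∀ e ∈ EF n x, J e = J' e) :
    inflH c β J n x = inflH c β J' n x := by
  have key : ∀ J J' : Coupling d, (∀ e ∈ EF n x, J e = J' e) →
      inflH c β J n x ≤ inflH c β J' n x := by
    intro J J' h
    refine restrictH hn fun L ω ω' hx hc hL hω => ?_
    have e1 : ∀ τ, gE β J L τ (ind x) = gE β J' L τ (ind x) := by
      intro τ
      refine gE_coupling β L (fun e he heL => h ⟨e, he⟩ ?_) τ _
      obtain ⟨u, hu, v, huv, rfl⟩ := Basic.mem_edgesOf.1 heL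
      have hxu := hL u hu
      rw [mem_EF]
      refine ⟨fun w hw => ?_, u, Sym2.mem_mk_left u v, hxu⟩
      rw [chain_mem_ball]
      have hw' : w ∈ s(u, v) := hw
      rw [Sym2.mem_iff] at hw'
      rcases hw' with rfl | rfl
      · exact hxu.le
      · have := chain_dist_tri x u w
        omega
    rw [e1, e1]
    exact le_inflH L ω ω' hx hc hω
  exact le_antisymm (key J J' h) (key J' J fun e he => (h e he).symm)

theorem measH (hn : 1 ≤ n) (c : Fin d) (β : ℝ) (x : Site d) :
    Measurable (fun J : Coupling d => inflH c β J n x) := by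
  have h1 := chain_meas (EF n x) (fun J => ENNReal.ofReal (inflH c β J n x))
    (fun J J' h => by rw [localH hn h])
  have h2 := h1.ennreal_toReal
  simpa [ENNReal.toReal_ofReal nonnegH] using h2

theorem intH (hn : 1 ≤ n) (c : Fin d) (β : ℝ) (x : Site d) :
    Integrable (fun J : Coupling d => inflH c β J n x) (couplingLaw d) :=
  Integrable.of_bound (measH hn c β x).aestronglyMeasurable 1 (ae_of_all _ fun J => by
    rw [Real.norm_eq_abs, abs_of_nonneg nonnegH]; exact le_oneH)

theorem trH_le (c : Fin d) (β : ℝ) (J' : Coupling d) (n : ℕ) (x v : Site d)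
    (hφ : ∀ x y : Site d, dist1 (x + v) (y + v) = dist1 x y) :
    inflH c β (pull (fun z => z + v) hφ J') n x ≤ inflH c β J' n (x + v) := by
  classical
  refine inflH_le fun L ω ω' hx hc h => ?_
  have hζ : ∀ (τ : Site d → Bool) (z : Site d), ∑ y ∈ (nbr (z + v)).filter
      (fun y => y ∉ Set.range (fun z : Site d => z + v)), Jc J' (z + v) y * sg (τ y) = 0 := by
    intro τ z
    rw [Finset.sum_eq_zero]
    intro y hy
    exact absurd ⟨y - v, by simp⟩ (Finset.mem_filter.1 hy).2
  have key : ∀ τ : Site d → Bool, gE β (pull (fun z => z + v) hφ J') L τ (ind x) =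
      gE β J' (L.image (fun z => z + v)) (fun y => τ (y - v)) (ind (x + v)) := by
    intro τ
    have h1 := gE_pull (fun z => z + v) hφ β J' L x (fun y => τ (y - v)) fun z _ => hζ _ z
    rw [h1]
    congr 1
    funext z
    simp
  rw [key, key]
  refine le_inflH _ _ _ (Finset.mem_image_of_mem _ hx) ?_ fun y hy hd => ?_
  · intro y hy
    obtain ⟨z, hz, rfl⟩ := Finset.mem_image.1 hy
    simp only [Pi.add_apply, hc z hz]
  · refine h (y - v) (fun hz => hy ?_) ?_
    · have := Finset.mem_image_of_mem (fun z => z + v) hz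
      simpa using this
    · have h2 := hφ x (y - v)
      simp only [sub_add_cancel] at h2
      rwa [← h2]

theorem trH (c : Fin d) (β : ℝ) (J' : Coupling d) (n : ℕ) (x v : Site d)
    (hφ : ∀ x y : Site d, dist1 (x + v) (y + v) = dist1 x y) :
    inflH c β (pull (fun z => z + v) hφ J') n x = inflH c β J' n (x + v) := by
  refine le_antisymm (trH_le c β J' n x v hφ) ?_
  have hφ' : ∀ x y : Site d, dist1 (x + -v) (y + -v) = dist1 x y := fun x y => dist_add x y (-v)
  have h := trH_le c β (pull (fun z => z + v) hφ J') n (x + v) (-v) hφ'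
  have e1 : pull (fun z => z + -v) hφ' (pull (fun z => z + v) hφ J') = J' := by
    funext e
    unfold pull
    congr 1
    apply Subtype.ext
    show Sym2.map (fun z => z + v) (Sym2.map (fun z => z + -v) e.1) = e.1
    rw [Sym2.map_map]
    have : ((fun z : Site d => z + v) ∘ fun z => z + -v) = id := by
      funext z
      simp
    rw [this, Sym2.map_id]
    rfl
  rw [e1] at h
  have e2 : x + v + -v = x := by simp
  rwa [e2] at h

theorem t_BASH : S_BASH := by
  intro d c β
  refine ⟨fun J n x L ω ω' hx hc h => le_inflH L ω ω' hx hc h,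
    fun J n x => ⟨nonnegH, le_oneH, le_inflH'⟩, fun J n n' x h => antiH h,
    fun J J' n x hn h => localH hn h, fun n x hn => ⟨measH hn c β x, intH hn c β x⟩,
    fun J' n x v => trH c β J' n x v _⟩

end Pool.Agent.Helper56.EAM3.Bas
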