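import Pool.Agent.Helper35.EAM.Spec3
import Pool.Agent.Helper61.EAM.ERG

/-!
# The zero-one law for translation invariant events, hyperplane version (EAM3, part ERGH)

Adapted from `Pool/Agent/Helper61/EAM/ERG.lean`.
-/

set_option autoImplicit false

open MeasureTheory Filter
open scoped ENNReal symmDiff Topology

namespace Pool.Agent.Helper56.EAM3

open Pool.H47EA Pool.Agent.Helper79K9.FS Pool.Agent.Helper35.EAM3
open Pool.Agent.Helper61.EAM (dist_tr far alg_cyl dense_cyl)

variable {d : ℕ} {c : Fin d}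

/-- the influence on the spin at `x` is at least `a` at all scales -/
def EV (c : Fin d) (β a : ℝ) (x : Site d) : Set (Coupling d) :=
  {J | ∀ n : ℕ, 1 ≤ n → a ≤ inflH c β J n x}

/-- the influence on the spin at `x` is at least `a` at scale `n` -/
def EN (c : Fin d) (β a : ℝ) (n : ℕ) (x : Site d) : Set (Coupling d) :=
  {J | a ≤ inflH c β J n x}

theorem EV_eq (β a : ℝ) (x : Site d) : EV c β a x = ⋂ n : ℕ, EN c β a (n + 1) x := by
  ext J
  simp only [EV, EN, Set.mem_ofPred_eq, Set.mem_iInter]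
  constructor
  · exact fun h n => h (n + 1) (by omega)
  · intro h n hn
    have := h (n - 1)
    rwa [Nat.sub_add_cancel hn] at this

theorem EV_sub (β a : ℝ) {n : ℕ} (hn : 1 ≤ n) (x : Site d) : EV c β a x ⊆ EN c β a n x :=
  fun _ h => h n hn

variable (hB : S_BASH)
include hB

theorem meas_EN {n : ℕ} (hn : 1 ≤ n) (β a : ℝ) (x : Site d) : MeasurableSet (EN c β a n x) :=
  ((hB d c β).2.2.2.2.1 n x hn).1 measurableSet_Ici

theorem meas_EV (β a : ℝ) (x : Site d) : MeasurableSet (EV c β a x) := by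
  rw [EV_eq]
  exact MeasurableSet.iInter fun n => meas_EN hB (by omega) β a x

theorem mu_EN {n : ℕ} (hn : 1 ≤ n) (β a : ℝ) (v : Site d) :
    couplingLaw d (EN c β a n v) = couplingLaw d (EN c β a n 0) := by
  rw [← law_pull (fun z => z + v) (dist_tr v), Measure.map_apply (meas_pull _ _)
    (meas_EN hB hn β a 0), law_pull (fun z => z + v) (dist_tr v)]
  congr 1
  ext J
  simp only [EN, Set.mem_ofPred_eq, Set.mem_preimage]
  rw [(hB d c β).2.2.2.2.2, zero_add]

theorem mu_EV (β a : ℝ) (v : Site d) :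
    couplingLaw d (EV c β a v) = couplingLaw d (EV c β a 0) := by
  rw [← law_pull (fun z => z + v) (dist_tr v), Measure.map_apply (meas_pull _ _)
    (meas_EV hB β a 0), law_pull (fun z => z + v) (dist_tr v)]
  congr 1
  ext J
  simp only [EV, Set.mem_ofPred_eq, Set.mem_preimage]
  simp only [(hB d c β).2.2.2.2.2, zero_add]

/-- the events at scale `n` approximate -/
theorem approx_EN (β a : ℝ) {ε : ℝ≥0∞} (hε : 0 < ε) : ∃ n : ℕ, 1 ≤ n ∧
    couplingLaw d (EN c β a n 0) ≤ couplingLaw d (EV c β a 0) + ε := by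
  have h : Tendsto (fun n : ℕ => couplingLaw d (EN c β a (n + 1) 0)) atTop
      (𝓝 (couplingLaw d (⋂ n : ℕ, EN c β a (n + 1) 0))) := by
    refine tendsto_measure_iInter_atTop (fun n => (meas_EN hB (by omega) β a 0).nullMeasurableSet)
      ?_ ⟨0, measure_ne_top _ _⟩
    intro m n hmn J hJ
    exact le_trans hJ ((hB d c β).2.2.1 J _ _ 0 (by omega))
  rw [← EV_eq] at h
  have h2 : couplingLaw d (EV c β a 0) < couplingLaw d (EV c β a 0) + ε :=
    ENNReal.lt_add_right (measure_ne_top _ _) hε.ne'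
  obtain ⟨n, hn⟩ := ((tendsto_order.1 h).2 _ h2).exists
  exact ⟨n + 1, by omega, hn.le⟩

theorem indep_EN {n : ℕ} (hn : 1 ≤ n) (β a : ℝ) (v : Site d) (S : Finset (lat d).edgeSet)
    (B : Set (S → Bool)) (hS : Disjoint S (EF n v)) :
    couplingLaw d (cylinder S B ∩ EN c β a n v) =
      couplingLaw d (cylinder S B) * couplingLaw d (EN c β a n v) := by
  have hBm : MeasurableSet (cylinder S B : Set (Coupling d)) :=
    MeasurableSet.cylinder S (Set.toFinite B).measurableSet
  have hE := meas_EN (c := c) hB hn β a v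
  have h := chain_indep S (EF n v) hS ((cylinder S B : Set (Coupling d)).indicator 1)
    ((EN c β a n v).indicator 1) ?_ ?_
  · rw [lintegral_indicator_one hBm, lintegral_indicator_one hE] at h
    rw [← h, ← lintegral_indicator_one (hBm.inter hE)]
    congr 1
    funext J
    rw [Set.inter_indicator_one]
    rfl
  · intro J J' hJ
    have : (J ∈ (cylinder S B : Set (Coupling d))) = (J' ∈ (cylinder S B : Set (Coupling d))) := by
      rw [mem_cylinder, mem_cylinder]
      have : S.restrict J = S.restrict J' := by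
        funext e
        exact hJ e.1 e.2
      rw [this]
    by_cases hm : J' ∈ (cylinder S B : Set (Coupling d))
    · rw [Set.indicator_of_mem (this ▸ hm), Set.indicator_of_mem hm]
      rfl
    · rw [Set.indicator_of_notMem (this ▸ hm), Set.indicator_of_notMem hm]
  · intro J J' hJ
    have h1 : inflH c β J n v = inflH c β J' n v := (hB d c β).2.2.2.1 J J' n v hn hJ
    by_cases hm : J' ∈ EN c β a n v
    · have hm' : J ∈ EN c β a n v := by
        show a ≤ inflH c β J n v
        rw [h1]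
        exact hm
      rw [Set.indicator_of_mem hm', Set.indicator_of_mem hm]
      rfl
    · have hm' : J ∉ EN c β a n v := by
        intro hm'
        apply hm
        show a ≤ inflH c β J' n v
        rw [← h1]
        exact hm'
      rw [Set.indicator_of_notMem hm', Set.indicator_of_notMem hm]

theorem bound (hd : 1 ≤ d) (β a : ℝ) {ε : ℝ} (hε : 0 < ε) :
    couplingLaw d (⋃ x : Site d, EV c β a x)ᶜ * couplingLaw d (EV c β a 0) ≤
      3 * ENNReal.ofReal ε := by
  set A : Set (Coupling d) := (⋃ x : Site d, EV c β a x)ᶜ with hA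
  have hAm : MeasurableSet A := (MeasurableSet.iUnion fun x => meas_EV hB β a x).compl
  have hε' : (0 : ℝ≥0∞) < ENNReal.ofReal ε := ENNReal.ofReal_pos.2 hε
  obtain ⟨t, ht, hAt⟩ := dense_cyl.approx A hAm (measure_ne_top _ _) ε hε
  obtain ⟨S, B, -, rfl⟩ := (mem_measurableCylinders t).1 ht
  obtain ⟨n, hn, hEN⟩ := approx_EN (c := c) hB β a hε'
  obtain ⟨v, hv⟩ := far hd S n
  set μ := couplingLaw d
  set cy : Set (Coupling d) := cylinder S B
  have h1 : μ (cy \ A) ≤ ENNReal.ofReal ε :=
    (measure_mono (fun J hJ => Or.inr hJ)).trans hAt.le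
  have h2 : μ (A \ cy) ≤ ENNReal.ofReal ε :=
    (measure_mono (fun J hJ => Or.inl hJ)).trans hAt.le
  have h3 : μ (EN c β a n v \ EV c β a v) ≤ ENNReal.ofReal ε := by
    rw [measure_sdiff (EV_sub β a hn v) (meas_EV hB β a v).nullMeasurableSet (measure_ne_top _ _)]
    rw [mu_EN hB hn, mu_EV hB]
    exact tsub_le_iff_left.2 hEN
  have h4 : μ (cy ∩ EN c β a n v) ≤ ENNReal.ofReal ε + ENNReal.ofReal ε := by
    have : cy ∩ EN c β a n v ⊆ (cy \ A) ∪ (EN c β a n v \ EV c β a v) := by
      rintro J ⟨hc, hE⟩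
      by_cases hJ : J ∈ EV c β a v
      · left
        refine ⟨hc, fun h => h ?_⟩
        exact Set.mem_iUnion.2 ⟨v, hJ⟩
      · right
        exact ⟨hE, hJ⟩
    exact (measure_mono this).trans ((measure_union_le _ _).trans (add_le_add h1 h3))
  have h5 : μ A ≤ μ cy + ENNReal.ofReal ε := by
    have : A ⊆ cy ∪ (A \ cy) := by
      intro J hJ
      by_cases h : J ∈ cy
      · exact Or.inl h
      · exact Or.inr ⟨hJ, h⟩
    exact (measure_mono this).trans ((measure_union_le _ _).trans (add_le_add le_rfl h2))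
  have h6 : μ (EV c β a 0) ≤ μ (EN c β a n v) := by
    rw [← mu_EV hB β a v]
    exact measure_mono (EV_sub β a hn v)
  calc μ A * μ (EV c β a 0) ≤ (μ cy + ENNReal.ofReal ε) * μ (EV c β a 0) :=
        mul_le_mul' h5 le_rfl
    _ = μ cy * μ (EV c β a 0) + ENNReal.ofReal ε * μ (EV c β a 0) := add_mul _ _ _
    _ ≤ μ cy * μ (EN c β a n v) + ENNReal.ofReal ε * 1 :=
        add_le_add (mul_le_mul' le_rfl h6) (mul_le_mul' le_rfl prob_le_one)
    _ = μ (cy ∩ EN c β a n v) + ENNReal.ofReal ε := by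
        rw [indep_EN hB hn β a v S B hv, mul_one]
    _ ≤ ENNReal.ofReal ε + ENNReal.ofReal ε + ENNReal.ofReal ε := add_le_add h4 le_rfl
    _ = 3 * ENNReal.ofReal ε := by ring

theorem t_ERGH : S_ERGH := by
  intro d c β a hpos
  have hd : 1 ≤ d := c.pos
  have hpos' : 0 < couplingLaw d (EV c β a 0) := hpos
  have h0 : couplingLaw d (⋃ x : Site d, EV c β a x)ᶜ * couplingLaw d (EV c β a 0) = 0 := by
    refine le_antisymm ?_ zero_le
    refine ENNReal.le_of_forall_pos_le_add fun ε hε _ => ?_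
    have := bound (c := c) hB hd β a (ε := (ε : ℝ) / 3) (by positivity)
    refine this.trans ?_
    rw [zero_add]
    have e1 : (3 : ℝ≥0∞) = ENNReal.ofReal 3 := by simp
    rw [e1, ← ENNReal.ofReal_mul (by norm_num)]
    have e2 : (3 : ℝ) * ((ε : ℝ) / 3) = ε := by ring
    rw [e2, ENNReal.ofReal_coe_nnreal]
  have h1 : couplingLaw d (⋃ x : Site d, EV c β a x)ᶜ = 0 := by
    rcases mul_eq_zero.1 h0 with h | h
    · exact h
    · exact absurd h hpos'.ne'
  have h2 : ∀ᵐ J ∂(couplingLaw d), J ∈ ⋃ x : Site d, EV c β a x := by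
    rw [ae_iff]
    exact h1
  filter_upwards [h2] with J hJ
  obtain ⟨x, hx⟩ := Set.mem_iUnion.1 hJ
  exact ⟨x, hx⟩

end Pool.Agent.Helper56.EAM3
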